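import Mathlib
import Pool.Agent.Q201.ML.LG

/-!
# Montgomery's conjecture and the dual large sieve with deleted frequencies

With the `ℓ²` norm of the coefficients in place of `max |a_n|` the conjecture is false.  Here it is
shown that the conjecture for `|a_n| ≤ 1` is equivalent to the `ℓ²` form with weights, and to the
dual large sieve inequality with the bound `N^ε (N + |S|)` (scaled by `N / |J|`) for a part `I` of any
set `J` of frequencies: it is enough that `I` has at least `N^(-ε) |J|` elements, and then `I` can be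
chosen with `|J \ I| ≤ η |J|`, for every `η`, with a factor `1/η` only.
-/

set_option autoImplicit false

namespace Pool.Agent.Results.MP_71ac24_nt.DeletedFrequencies

open Finset

/-- `n^{it}` -/
noncomputable def e (n : ℕ) (t : ℝ) : ℂ :=
  Complex.exp (Complex.I * (t : ℂ) * (Real.log (n : ℝ) : ℂ))

/-- `S` is a 1-separated finite subset of `[0, N²]`. -/
def Admissible (N : ℕ) (S : Finset ℝ) : Prop :=
  (∀ t ∈ S, 0 ≤ t ∧ t ≤ (N : ℝ) ^ 2) ∧ ∀ t ∈ S, ∀ u ∈ S, t ≠ u → 1 ≤ |t - u|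

/-- The conjecture (the frozen statement `S17395`). -/
def Montgomery : Prop :=
  ∀ ε : ℝ, 0 < ε → ∃ C : ℝ, 0 < C ∧
    ∀ N : ℕ, 1 ≤ N → ∀ T : ℝ, T ≤ (N : ℝ) ^ 2 →
      ∀ a : ℕ → ℂ, (∀ n, ‖a n‖ ≤ 1) →
        ∀ S : Finset ℝ, (∀ t ∈ S, 0 ≤ t ∧ t ≤ T) →
          (∀ t ∈ S, ∀ u ∈ S, t ≠ u → 1 ≤ |t - u|) →
            ∑ t ∈ S, ‖∑ n ∈ Finset.Icc 1 N, a n * e n t‖ ^ 2
              ≤ C * (N : ℝ) ^ ε * ((N : ℝ) + (S.card : ℝ)) * (N : ℝ)

/-- The `ℓ²` form with weights `w n` of sum one, which depend on `N` and `S`. -/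
def Weighted : Prop :=
  ∀ ε : ℝ, 0 < ε → ∃ C : ℝ, 0 < C ∧ ∀ N : ℕ, 1 ≤ N → ∀ S : Finset ℝ, Admissible N S →
    ∃ w : ℕ → ℝ, (∀ n, 0 ≤ w n) ∧ ∑ n ∈ Icc 1 N, w n = 1 ∧
      ∀ a : ℕ → ℂ, ∑ t ∈ S, ‖∑ n ∈ Icc 1 N, a n * e n t‖ ^ 2
        ≤ C * (N : ℝ) ^ ε * ((N : ℝ) + S.card) * N * ∑ n ∈ Icc 1 N, w n * ‖a n‖ ^ 2

/-- The dual large sieve after deleting few frequencies. -/
def FewDeleted : Prop :=
  ∀ ε : ℝ, 0 < ε → ∃ C : ℝ, 0 < C ∧ ∀ N : ℕ, 1 ≤ N → ∀ S : Finset ℝ, Admissible N S →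
    ∀ J : Finset ℕ, J ⊆ Icc 1 N → ∀ η : ℝ, 0 < η →
      ∃ I : Finset ℕ, I ⊆ J ∧ ((J \ I).card : ℝ) ≤ η * J.card ∧
        ∀ c : ℝ → ℂ, ∑ n ∈ I, ‖∑ t ∈ S, c t * e n t‖ ^ 2
          ≤ C / η * (N : ℝ) ^ ε * ((N : ℝ) + S.card) * (N / J.card) * ∑ t ∈ S, ‖c t‖ ^ 2

/-- The dual large sieve on a part, of proportion `1 / (C N^ε)`, of the frequencies. -/
def SomeKept : Prop :=
  ∀ ε : ℝ, 0 < ε → ∃ C : ℝ, 0 < C ∧ ∀ N : ℕ, 1 ≤ N → ∀ S : Finset ℝ, Admissible N S →
    ∀ J : Finset ℕ, J ⊆ Icc 1 N →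
      ∃ I : Finset ℕ, I ⊆ J ∧ (J.card : ℝ) ≤ C * (N : ℝ) ^ ε * I.card ∧
        ∀ c : ℝ → ℂ, ∑ n ∈ I, ‖∑ t ∈ S, c t * e n t‖ ^ 2
          ≤ C * (N : ℝ) ^ ε * ((N : ℝ) + S.card) * (N / J.card) * ∑ t ∈ S, ‖c t‖ ^ 2

/-- duality -/
theorem dual {α β : Type} (I : Finset α) (S : Finset β) (M : α → β → ℂ) (L : ℝ) (hL : 0 ≤ L)
    (h : ∀ b : α → ℂ, ∑ t ∈ S, ‖∑ n ∈ I, b n * M n t‖ ^ 2 ≤ L * ∑ n ∈ I, ‖b n‖ ^ 2)
    (c : β → ℂ) : ∑ n ∈ I, ‖∑ t ∈ S, c t * M n t‖ ^ 2 ≤ L * ∑ t ∈ S, ‖c t‖ ^ 2 := by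
  set y : α → ℂ := fun n => ∑ t ∈ S, c t * M n t with hy
  set X : ℝ := ∑ n ∈ I, ‖y n‖ ^ 2 with hX
  set b : α → ℂ := fun n => (starRingEnd ℂ) (y n) with hb
  have h1 := h b
  have hbn : ∑ n ∈ I, ‖b n‖ ^ 2 = X := by
    refine sum_congr rfl fun n _ => ?_
    rw [hb]
    simp only [RCLike.norm_conj]
  rw [hbn] at h1
  have h2 : (X : ℂ) = ∑ t ∈ S, c t * ∑ n ∈ I, b n * M n t := by
    have e1 : ∀ t ∈ S, c t * ∑ n ∈ I, b n * M n t = ∑ n ∈ I, b n * (c t * M n t) := by
      intro t _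
      rw [mul_sum]
      refine sum_congr rfl fun n _ => ?_
      ring
    rw [sum_congr rfl e1, sum_comm, hX]
    push_cast
    refine sum_congr rfl fun n _ => ?_
    rw [← mul_sum, hb]
    change ((‖y n‖ : ℝ) : ℂ) ^ 2 = (starRingEnd ℂ) (y n) * y n
    rw [mul_comm, Complex.mul_conj, Complex.normSq_eq_norm_sq]
    push_cast
    rfl
  have h3 : X ≤ ∑ t ∈ S, ‖c t‖ * ‖∑ n ∈ I, b n * M n t‖ := by
    have : ‖(X : ℂ)‖ ≤ ∑ t ∈ S, ‖c t‖ * ‖∑ n ∈ I, b n * M n t‖ := by
      rw [h2]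
      refine (norm_sum_le _ _).trans (le_of_eq ?_)
      simp only [norm_mul]
    rw [Complex.norm_real] at this
    exact (le_abs_self X).trans this
  have hX0 : 0 ≤ X := by positivity
  have h4 : X ^ 2 ≤ (∑ t ∈ S, ‖c t‖ ^ 2) * (L * X) := by
    calc X ^ 2 ≤ (∑ t ∈ S, ‖c t‖ * ‖∑ n ∈ I, b n * M n t‖) ^ 2 := by gcongr
      _ ≤ (∑ t ∈ S, ‖c t‖ ^ 2) * ∑ t ∈ S, ‖∑ n ∈ I, b n * M n t‖ ^ 2 :=
          sum_mul_sq_le_sq_mul_sq _ _ _
      _ ≤ _ := by gcongr
  rcases hX0.eq_or_lt with h | h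
  · rw [← h]
    positivity
  · have : X * X ≤ (L * ∑ t ∈ S, ‖c t‖ ^ 2) * X := by nlinarith
    exact le_of_mul_le_mul_right this h

/-- weights for the frequencies in `J` -/
theorem weights_on (N : ℕ) (S : Finset ℝ) (B : ℝ) (hB0 : 0 < B)
    (hB : ∀ a : ℕ → ℂ, (∀ n, ‖a n‖ ≤ 1) → ∑ t ∈ S, ‖∑ n ∈ Icc 1 N, a n * e n t‖ ^ 2 ≤ B)
    (J : Finset ℕ) (hJ : J ⊆ Icc 1 N) (hne : J.Nonempty) :
    ∃ w : ℕ → ℝ, (∀ n, 0 ≤ w n) ∧ ∑ n ∈ J, w n = 1 ∧
      ∀ a : ℕ → ℂ, ∑ t ∈ S, ‖∑ n ∈ J, a n * e n t‖ ^ 2 ≤ 48 * B * ∑ n ∈ J, w n * ‖a n‖ ^ 2 := by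
  classical
  have : Nonempty J := hne.to_subtype
  have key : ∀ a : ℕ → ℂ, Pool.Agent.Q201.ML.LG.Q (ι := J) (κ := S) (fun n t => e n t)
      (fun n => a n) = ∑ t ∈ S, ‖∑ n ∈ J, a n * e n t‖ ^ 2 := by
    intro a
    unfold Pool.Agent.Q201.ML.LG.Q
    rw [← Finset.sum_coe_sort S (fun t => ‖∑ n ∈ J, a n * e n t‖ ^ 2)]
    refine sum_congr rfl fun t _ => ?_
    rw [← Finset.sum_coe_sort J (fun n => a n * e n t)]
  obtain ⟨w, hw0, hw1, hw⟩ := Pool.Agent.Q201.ML.LG.weights (ι := J) (κ := S)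
    (fun n t => e n t) B hB0 (by
      intro a ha
      set a' : ℕ → ℂ := fun n => if h : n ∈ J then a ⟨n, h⟩ else 0 with ha'
      have e1 : a = fun n : J => a' n := by
        funext n
        simp [ha', n.2]
      rw [e1, key]
      have h1 := hB a' (by
        intro n
        simp only [ha']
        split_ifs with h
        · exact ha _
        · simp)
      refine le_trans (le_of_eq ?_) h1
      refine sum_congr rfl fun t _ => ?_
      congr 2
      refine sum_subset hJ fun n _ hn => ?_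
      simp [ha', hn])
  refine ⟨fun n => if h : n ∈ J then w ⟨n, h⟩ else 0, ?_, ?_, ?_⟩
  · intro n
    simp only
    split_ifs
    · exact hw0 _
    · exact le_rfl
  · rw [← Finset.sum_coe_sort J, ← hw1]
    refine sum_congr rfl fun n _ => ?_
    simp [n.2]
  · intro a
    have h1 := hw (fun n => a n)
    rw [key] at h1
    refine h1.trans (le_of_eq ?_)
    congr 1
    rw [← Finset.sum_coe_sort J]
    refine sum_congr rfl fun n _ => ?_
    simp [n.2]

theorem mont_bound (h : Montgomery) (ε : ℝ) (hε : 0 < ε) : ∃ C : ℝ, 0 < C ∧ ∀ N : ℕ, 1 ≤ N →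
    ∀ S : Finset ℝ, Admissible N S → ∀ a : ℕ → ℂ, (∀ n, ‖a n‖ ≤ 1) →
      ∑ t ∈ S, ‖∑ n ∈ Icc 1 N, a n * e n t‖ ^ 2 ≤ C * (N : ℝ) ^ ε * ((N : ℝ) + S.card) * N := by
  obtain ⟨C, hC, h1⟩ := h ε hε
  exact ⟨C, hC, fun N hN S hS a ha => h1 N hN _ le_rfl a ha S hS.1 hS.2⟩

theorem weighted_of_mont (h : Montgomery) : Weighted := by
  intro ε hε
  obtain ⟨C, hC, h1⟩ := mont_bound h ε hε
  refine ⟨48 * C, by positivity, fun N hN S hS => ?_⟩
  have hN' : (0 : ℝ) < N := by exact_mod_cast hN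
  obtain ⟨w, hw0, hw1, hw⟩ := weights_on N S (C * (N : ℝ) ^ ε * ((N : ℝ) + S.card) * N)
    (by positivity) (h1 N hN S hS) (Icc 1 N) subset_rfl ⟨1, by simp [hN]⟩
  refine ⟨w, hw0, hw1, fun a => (hw a).trans (le_of_eq ?_)⟩
  ring

theorem mont_of_weighted (h : Weighted) : Montgomery := by
  intro ε hε
  obtain ⟨C, hC, h1⟩ := h ε hε
  refine ⟨C, hC, fun N hN T hT a ha S hS hS' => ?_⟩
  obtain ⟨w, hw0, hw1, hw⟩ := h1 N hN S ⟨fun t ht => ⟨(hS t ht).1, (hS t ht).2.trans hT⟩, hS'⟩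
  refine (hw a).trans ?_
  have h2 : ∑ n ∈ Icc 1 N, w n * ‖a n‖ ^ 2 ≤ 1 := by
    rw [← hw1]
    refine sum_le_sum fun n _ => ?_
    have : ‖a n‖ ^ 2 ≤ 1 := by nlinarith [ha n, norm_nonneg (a n)]
    nlinarith [hw0 n]
  calc _ ≤ C * (N : ℝ) ^ ε * ((N : ℝ) + S.card) * N * 1 := by gcongr
    _ = _ := by ring

theorem few_of_mont (h : Montgomery) : FewDeleted := by
  classical
  intro ε hε
  obtain ⟨C, hC, h1⟩ := mont_bound h ε hε
  refine ⟨48 * C, by positivity, fun N hN S hS J hJ η hη => ?_⟩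
  have hN' : (0 : ℝ) < N := by exact_mod_cast hN
  rcases J.eq_empty_or_nonempty with rfl | hne
  · refine ⟨∅, subset_rfl, by simp, fun c => ?_⟩
    simp
  have hJ0 : (0 : ℝ) < J.card := by exact_mod_cast hne.card_pos
  set B : ℝ := C * (N : ℝ) ^ ε * ((N : ℝ) + S.card) * N with hB
  have hB0 : 0 < B := by positivity
  obtain ⟨w, hw0, hw1, hw⟩ := weights_on N S B hB0 (h1 N hN S hS) J hJ hne
  refine ⟨J.filter fun n => w n ≤ 1 / (η * J.card), filter_subset _ _, ?_, fun c => ?_⟩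
  · have h2 : ((J \ J.filter fun n => w n ≤ 1 / (η * J.card)).card : ℝ) * (1 / (η * J.card)) ≤
        ∑ n ∈ J, w n := by
      rw [← nsmul_eq_mul, ← sum_const]
      calc ∑ n ∈ J \ J.filter (fun n => w n ≤ 1 / (η * J.card)), 1 / (η * J.card)
          ≤ ∑ n ∈ J \ J.filter (fun n => w n ≤ 1 / (η * J.card)), w n := by
            refine sum_le_sum fun n hn => ?_
            rw [mem_sdiff, mem_filter] at hn
            by_contra hcon
            push Not at hcon
            exact hn.2 ⟨hn.1, hcon.le⟩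
        _ ≤ ∑ n ∈ J, w n := sum_le_sum_of_subset_of_nonneg sdiff_subset fun n _ _ => hw0 n
    rw [hw1, mul_one_div, div_le_one (by positivity)] at h2
    exact h2
  · set I : Finset ℕ := J.filter fun n => w n ≤ 1 / (η * J.card) with hI
    have h3 := dual I S e (48 * B / (η * J.card)) (by positivity) (by
      intro b
      have h4 := hw (fun n => if n ∈ I then b n else 0)
      have e1 : ∀ t, ∑ n ∈ J, (if n ∈ I then b n else 0) * e n t = ∑ n ∈ I, b n * e n t := by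
        intro t
        rw [← sum_subset (filter_subset _ J : I ⊆ J)]
        · refine sum_congr rfl fun n hn => ?_
          rw [if_pos hn]
        · intro n _ hn
          rw [if_neg hn, zero_mul]
      simp only [e1] at h4
      refine h4.trans ?_
      have h5 : ∑ n ∈ J, w n * ‖if n ∈ I then b n else 0‖ ^ 2 ≤
          1 / (η * J.card) * ∑ n ∈ I, ‖b n‖ ^ 2 := by
        rw [← sum_subset (filter_subset _ J : I ⊆ J), mul_sum]
        · refine sum_le_sum fun n hn => ?_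
          rw [if_pos hn]
          have := (mem_filter.1 hn).2
          gcongr
        · intro n _ hn
          rw [if_neg hn]
          simp
      calc 48 * B * ∑ n ∈ J, w n * ‖if n ∈ I then b n else 0‖ ^ 2
          ≤ 48 * B * (1 / (η * J.card) * ∑ n ∈ I, ‖b n‖ ^ 2) := by gcongr
        _ = _ := by ring) c
    refine h3.trans (le_of_eq ?_)
    rw [hB]
    field_simp

theorem some_of_few (h : FewDeleted) : SomeKept := by
  classical
  intro ε hε
  obtain ⟨C, hC, h1⟩ := h ε hε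
  refine ⟨2 * C + 2, by positivity, fun N hN S hS J hJ => ?_⟩
  have hN' : (1 : ℝ) ≤ N := by exact_mod_cast hN
  have hNε : 1 ≤ (N : ℝ) ^ ε := Real.one_le_rpow hN' hε.le
  obtain ⟨I, hIJ, hI, h2⟩ := h1 N hN S hS J hJ (1 / 2) (by norm_num)
  refine ⟨I, hIJ, ?_, fun c => (h2 c).trans ?_⟩
  · have h3 : (J.card : ℝ) = (J \ I).card + I.card := by
      rw [← card_sdiff_add_card_eq_card hIJ]
      push_cast
      rfl
    have h4 : (J.card : ℝ) ≤ 2 * I.card := by linarith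
    refine h4.trans ?_
    gcongr
    nlinarith
  · have h5 : C / (1 / 2) ≤ 2 * C + 2 := by
      rw [div_div_eq_mul_div]
      linarith
    gcongr

theorem mont_of_some (h : SomeKept) : Montgomery := by
  classical
  intro ε hε
  obtain ⟨C₀, hC₀, h1⟩ := h (ε / 5) (by positivity)
  set δ : ℝ := ε / 5 with hδ
  have hδ0 : 0 < δ := by positivity
  set C : ℝ := max C₀ 1 with hC
  have hC1 : 1 ≤ C := le_max_right _ _
  have hC0 : C₀ ≤ C := le_max_left _ _
  refine ⟨C * (1 + C / δ) ^ 2, by positivity, fun N hN T hT a ha S hS hS' => ?_⟩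
  have hN' : (1 : ℝ) ≤ N := by exact_mod_cast hN
  have hN0 : (0 : ℝ) < N := by linarith
  have hNδ : 1 ≤ (N : ℝ) ^ δ := Real.one_le_rpow hN' hδ0.le
  have hadm : Admissible N S := ⟨fun t ht => ⟨(hS t ht).1, (hS t ht).2.trans hT⟩, hS'⟩
  set R : ℝ := C * (N : ℝ) ^ δ with hR
  have hR1 : 1 ≤ R := by
    rw [hR]
    nlinarith
  set Λ : ℝ := C * (N : ℝ) ^ δ * ((N : ℝ) + S.card) * N with hΛ
  have hΛ0 : 0 < Λ := by positivity
  -- the norm
  set F : Finset ℕ → ℝ := fun J =>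
    ‖(WithLp.toLp 2 fun t : S => ∑ n ∈ J, a n * e n t : EuclideanSpace ℂ S)‖ with hF
  have hFsq : ∀ J, F J ^ 2 = ∑ t ∈ S, ‖∑ n ∈ J, a n * e n t‖ ^ 2 := by
    intro J
    rw [hF]
    simp only
    rw [EuclideanSpace.norm_sq_eq, ← Finset.sum_coe_sort S]
  have hF0 : ∀ J, 0 ≤ F J := fun J => norm_nonneg _
  have hadd : ∀ I J : Finset ℕ, I ⊆ J → F J ≤ F I + F (J \ I) := by
    intro I J hIJ
    have e1 : (WithLp.toLp 2 fun t : S => ∑ n ∈ J, a n * e n t : EuclideanSpace ℂ S) =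
        WithLp.toLp 2 (fun t : S => ∑ n ∈ I, a n * e n t) +
          WithLp.toLp 2 (fun t : S => ∑ n ∈ J \ I, a n * e n t) := by
      ext t
      simp only [PiLp.add_apply]
      rw [add_comm, sum_sdiff hIJ]
    rw [hF]
    simp only
    rw [e1]
    exact norm_add_le _ _
  have main : ∀ J : Finset ℕ, J ⊆ Icc 1 N → J.Nonempty →
      F J ≤ √Λ * (1 + R * Real.log J.card) := by
    intro J
    induction J using Finset.strongInduction with
    | H J ih =>
      intro hJ hne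
      have hJ0 : (0 : ℝ) < J.card := by exact_mod_cast hne.card_pos
      have hJ1 : (1 : ℝ) ≤ J.card := by exact_mod_cast hne.card_pos
      obtain ⟨I, hIJ, hI, h2⟩ := h1 N hN S hadm J hJ
      have hI' : (J.card : ℝ) ≤ R * I.card := by
        refine hI.trans ?_
        rw [hR]
        gcongr
      have hI0 : (0 : ℝ) < I.card := by
        by_contra hcon
        push Not at hcon
        have : (I.card : ℝ) = 0 := le_antisymm hcon (Nat.cast_nonneg _)
        rw [this, mul_zero] at hI'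
        linarith
      have h3 : F I ≤ √Λ := by
        refine Real.le_sqrt_of_sq_le ?_
        rw [hFsq]
        have h4 := dual S I (fun t n => e n t) (Λ / J.card) (by positivity) (by
          intro c
          refine (h2 c).trans ?_
          have : C₀ * (N : ℝ) ^ δ * ((N : ℝ) + S.card) * (N / J.card) ≤ Λ / J.card := by
            rw [hΛ, mul_div_assoc]
            gcongr
          gcongr) a
        refine h4.trans ?_
        have h5 : ∑ n ∈ I, ‖a n‖ ^ 2 ≤ I.card := by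
          calc ∑ n ∈ I, ‖a n‖ ^ 2 ≤ ∑ n ∈ I, (1 : ℝ) := sum_le_sum fun n _ => by
                nlinarith [ha n, norm_nonneg (a n)]
            _ = I.card := by simp
        have h6 : (I.card : ℝ) ≤ J.card := by exact_mod_cast card_le_card hIJ
        calc Λ / J.card * ∑ n ∈ I, ‖a n‖ ^ 2 ≤ Λ / J.card * J.card := by
              gcongr
              exact h5.trans h6
          _ = Λ := by field_simp
      have hlog : 0 ≤ Real.log J.card := Real.log_nonneg hJ1
      rcases (J \ I).eq_empty_or_nonempty with h7 | h7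
      · have h8 : F (J \ I) = 0 := by
          rw [h7, hF]
          simp only [sum_empty]
          have : (WithLp.toLp 2 fun _ : S => (0 : ℂ) : EuclideanSpace ℂ S) = 0 := rfl
          rw [this, norm_zero]
        have h9 := hadd I J hIJ
        rw [h8, add_zero] at h9
        calc F J ≤ √Λ * 1 := by linarith
          _ ≤ _ := by
            gcongr
            nlinarith
      · have h8 : J \ I ⊂ J := by
          refine ⟨sdiff_subset, fun hcon => ?_⟩
          have h9 : I.Nonempty := by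
            rw [← card_pos]
            exact_mod_cast hI0
          obtain ⟨n, hn⟩ := h9
          have := hcon (hIJ hn)
          rw [mem_sdiff] at this
          exact this.2 hn
        have h9 := ih _ h8 (sdiff_subset.trans hJ) h7
        have h10 : (0 : ℝ) < (J \ I).card := by exact_mod_cast h7.card_pos
        have h11 : ((J \ I).card : ℝ) = J.card - I.card := by
          rw [eq_sub_iff_add_eq]
          exact_mod_cast card_sdiff_add_card_eq_card hIJ
        have h12 : Real.log ((J \ I).card) ≤ Real.log J.card - 1 / R := by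
          have h13 : Real.log ((J \ I).card / J.card) ≤ (J \ I).card / J.card - 1 :=
            Real.log_le_sub_one_of_pos (by positivity)
          rw [Real.log_div h10.ne' hJ0.ne'] at h13
          have h14 : ((J \ I).card : ℝ) / J.card - 1 ≤ - (1 / R) := by
            rw [h11, sub_div, div_self hJ0.ne']
            have : 1 / R ≤ I.card / J.card := by
              rw [div_le_div_iff₀ (by linarith) hJ0]
              linarith
            linarith
          linarith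
        have h15 : 1 + R * Real.log ((J \ I).card) ≤ R * Real.log J.card := by
          have : R * Real.log ((J \ I).card) ≤ R * (Real.log J.card - 1 / R) := by gcongr
          have e2 : R * (Real.log J.card - 1 / R) = R * Real.log J.card - 1 := by
            field_simp
          linarith
        calc F J ≤ F I + F (J \ I) := hadd I J hIJ
          _ ≤ √Λ + √Λ * (1 + R * Real.log ((J \ I).card)) := by linarith
          _ ≤ √Λ + √Λ * (R * Real.log J.card) := by gcongr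
          _ = _ := by ring
  have h2 := main (Icc 1 N) subset_rfl ⟨1, by simp [hN]⟩
  rw [← hFsq]
  have h3 : (Icc 1 N).card = N := by simp
  rw [h3] at h2
  have h4 : Real.log N ≤ (N : ℝ) ^ δ / δ := Real.log_le_rpow_div hN0.le hδ0
  have h5 : 1 + R * Real.log N ≤ (N : ℝ) ^ (2 * δ) * (1 + C / δ) := by
    have e1 : (N : ℝ) ^ (2 * δ) = (N : ℝ) ^ δ * (N : ℝ) ^ δ := by
      rw [← Real.rpow_add hN0]
      congr 1
      ring
    have h6 : R * Real.log N ≤ C * (N : ℝ) ^ δ * ((N : ℝ) ^ δ / δ) := by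
      rw [hR]
      gcongr
    have h7 : 1 ≤ (N : ℝ) ^ (2 * δ) := Real.one_le_rpow hN' (by positivity)
    calc 1 + R * Real.log N ≤ (N : ℝ) ^ (2 * δ) + C * (N : ℝ) ^ δ * ((N : ℝ) ^ δ / δ) := by linarith
      _ = _ := by
        rw [e1]
        ring
  have hlogN : 0 ≤ Real.log N := Real.log_nonneg hN'
  calc F (Icc 1 N) ^ 2 ≤ (√Λ * ((N : ℝ) ^ (2 * δ) * (1 + C / δ))) ^ 2 := by
        have := hF0 (Icc 1 N)
        gcongr
        refine h2.trans ?_
        gcongr
    _ = Λ * ((N : ℝ) ^ (2 * δ)) ^ 2 * (1 + C / δ) ^ 2 := by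
        rw [mul_pow, Real.sq_sqrt hΛ0.le]
        ring
    _ = _ := by
        have e2 : (N : ℝ) ^ ε = (N : ℝ) ^ δ * ((N : ℝ) ^ (2 * δ)) ^ 2 := by
          rw [← Real.rpow_natCast, ← Real.rpow_mul hN0.le, ← Real.rpow_add hN0]
          congr 1
          rw [hδ]
          push_cast
          ring
        rw [e2, hΛ]
        ring

theorem result : List.TFAE [Montgomery, Weighted, FewDeleted, SomeKept] := by
  tfae_have 1 → 2 := weighted_of_mont
  tfae_have 2 → 1 := mont_of_weighted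
  tfae_have 1 → 3 := few_of_mont
  tfae_have 3 → 4 := some_of_few
  tfae_have 4 → 1 := mont_of_some
  tfae_finish

end Pool.Agent.Results.MP_71ac24_nt.DeletedFrequencies
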